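import Mathlib

set_option autoImplicit false

open MeasureTheory Set

namespace Pool.Agent.Results.MP_507a17_nt.PlaneMeasures

/-! ## The midpoint lemma -/

section Mid

variable {ι : Type} [LinearOrder ι]

theorem mid_pre (A0 A1 t0 tm t1 : ι → ℝ) (E : ℝ)
    (hD : Monotone (fun i => A1 i - A0 i))
    (h0m : Monotone (fun i => tm i - t0 i)) (hm1 : Monotone (fun i => t1 i - tm i))
    (he0 : ∀ i, |A0 i - t0 i| ≤ E) (he1 : ∀ i, |A1 i - t1 i| ≤ E) :
    ∃ h : ι → ℝ, Monotone (fun i => h i - A0 i) ∧ Monotone (fun i => A1 i - h i) ∧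
      ∀ i, |h i - tm i| ≤ E := by
  classical
  have hU0 : ∀ i j, j ≤ i → A0 i + (tm j - E - A0 j) ≤ tm i + E := by
    intro i j hj
    have h1 := h0m hj
    simp only at h1
    have h2 := abs_le.mp (he0 i)
    have h3 := abs_le.mp (he0 j)
    linarith [h2.1, h2.2, h3.1, h3.2]
  have hU1 : ∀ i j, i ≤ j → A1 i + (tm j - E - A1 j) ≤ tm i + E := by
    intro i j hj
    have h1 := hm1 hj
    simp only at h1
    have h2 := abs_le.mp (he1 i)
    have h3 := abs_le.mp (he1 j)
    linarith [h2.1, h2.2, h3.1, h3.2]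
  let S : ι → Set ℝ := fun i => {v | ∃ j, j ≤ i ∧ v = A0 i + (tm j - E - A0 j)} ∪
    {v | ∃ j, i ≤ j ∧ v = A1 i + (tm j - E - A1 j)}
  have hSne : ∀ i, (S i).Nonempty := fun i => ⟨_, Or.inl ⟨i, le_rfl, rfl⟩⟩
  have hSb : ∀ i, ∀ v ∈ S i, v ≤ tm i + E := by
    rintro i v (⟨j, hj, rfl⟩ | ⟨j, hj, rfl⟩)
    · exact hU0 i j hj
    · exact hU1 i j hj
  have hSbdd : ∀ i, BddAbove (S i) := fun i => ⟨_, fun v hv => hSb i v hv⟩
  have hlow0 : ∀ i j, j ≤ i → A0 i + (tm j - E - A0 j) ≤ sSup (S i) := fun i j hj =>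
    le_csSup (hSbdd i) (Or.inl ⟨j, hj, rfl⟩)
  have hlow1 : ∀ i j, i ≤ j → A1 i + (tm j - E - A1 j) ≤ sSup (S i) := fun i j hj =>
    le_csSup (hSbdd i) (Or.inr ⟨j, hj, rfl⟩)
  refine ⟨fun i => sSup (S i), ?_, ?_, ?_⟩
  · intro i1 i2 hi
    simp only
    have key : sSup (S i1) ≤ A0 i1 + (sSup (S i2) - A0 i2) := by
      refine csSup_le (hSne i1) ?_
      rintro v (⟨j, hj, rfl⟩ | ⟨j, hj, rfl⟩)
      · have := hlow0 i2 j (hj.trans hi)
        linarith
      · rcases le_total i2 j with h2 | h2
        · have := hlow1 i2 j h2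
          have h3 := hD hi
          simp only at h3
          linarith
        · have := hlow0 i2 j h2
          have h3 := hD hj
          simp only at h3
          linarith
    linarith
  · intro i1 i2 hi
    simp only
    have key : sSup (S i2) ≤ A1 i2 + (sSup (S i1) - A1 i1) := by
      refine csSup_le (hSne i2) ?_
      rintro v (⟨j, hj, rfl⟩ | ⟨j, hj, rfl⟩)
      · rcases le_total j i1 with h2 | h2
        · have := hlow0 i1 j h2
          have h3 := hD hi
          simp only at h3
          linarith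
        · have := hlow1 i1 j h2
          have h3 := hD hj
          simp only at h3
          linarith
      · have := hlow1 i1 j (hi.trans hj)
        linarith
    linarith
  · intro i
    rw [abs_le]
    constructor
    · have := hlow0 i i le_rfl
      linarith
    · have := csSup_le (hSne i) (hSb i)
      linarith

theorem mid_real (A0 A1 t0 tm t1 : ι → ℝ) (E : ℝ)
    (hD : Monotone (fun i => A1 i - A0 i)) (hD0 : ∀ i, A0 i ≤ A1 i)
    (h0m : Monotone (fun i => tm i - t0 i)) (hm1 : Monotone (fun i => t1 i - tm i))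
    (h0m' : ∀ i, t0 i ≤ tm i) (hm1' : ∀ i, tm i ≤ t1 i)
    (he0 : ∀ i, |A0 i - t0 i| ≤ E) (he1 : ∀ i, |A1 i - t1 i| ≤ E) :
    ∃ h : ι → ℝ, Monotone (fun i => h i - A0 i) ∧ Monotone (fun i => A1 i - h i) ∧
      (∀ i, A0 i ≤ h i) ∧ (∀ i, h i ≤ A1 i) ∧ ∀ i, |h i - tm i| ≤ E := by
  obtain ⟨h, h1, h2, h3⟩ := mid_pre A0 A1 t0 tm t1 E hD h0m hm1 he0 he1
  refine ⟨fun i => max (A0 i) (min (h i) (A1 i)), ?_, ?_, ?_, ?_, ?_⟩
  · intro i1 i2 hi
    simp only
    have e1 := h1 hi
    have e3 := hD hi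
    simp only at e1 e3
    have key : max (A0 i1) (min (h i1) (A1 i1)) ≤
        A0 i1 + (max (A0 i2) (min (h i2) (A1 i2)) - A0 i2) := by
      apply max_le
      · have := le_max_left (A0 i2) (min (h i2) (A1 i2))
        linarith
      · have h4 := le_max_right (A0 i2) (min (h i2) (A1 i2))
        rcases le_total (h i2) (A1 i2) with h5 | h5
        · rw [min_eq_left h5] at h4 ⊢
          have := min_le_left (h i1) (A1 i1)
          linarith
        · rw [min_eq_right h5] at h4 ⊢
          have := min_le_right (h i1) (A1 i1)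
          linarith
    linarith
  · intro i1 i2 hi
    simp only
    have e1 := h2 hi
    have e3 := hD hi
    simp only at e1 e3
    have key : max (A0 i2) (min (h i2) (A1 i2)) ≤
        A1 i2 + (max (A0 i1) (min (h i1) (A1 i1)) - A1 i1) := by
      apply max_le
      · have := le_max_left (A0 i1) (min (h i1) (A1 i1))
        linarith
      · have h4 := le_max_right (A0 i1) (min (h i1) (A1 i1))
        rcases le_total (h i1) (A1 i1) with h5 | h5
        · rw [min_eq_left h5] at h4 ⊢
          have := min_le_left (h i2) (A1 i2)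
          linarith
        · rw [min_eq_right h5] at h4 ⊢
          have := min_le_right (h i2) (A1 i2)
          linarith
    linarith
  · intro i
    exact le_max_left _ _
  · intro i
    exact max_le (hD0 i) (min_le_right _ _)
  · intro i
    have a1 := abs_le.mp (h3 i)
    have a2 := abs_le.mp (he0 i)
    have a3 := abs_le.mp (he1 i)
    have b1 := h0m' i
    have b2 := hm1' i
    rw [abs_le]
    constructor
    · have h4 : tm i - E ≤ min (h i) (A1 i) := le_min (by linarith [a1.1]) (by linarith [a3.1])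
      have := le_max_right (A0 i) (min (h i) (A1 i))
      linarith
    · have : max (A0 i) (min (h i) (A1 i)) ≤ tm i + E :=
        max_le (by linarith [a2.2]) ((min_le_left _ _).trans (by linarith [a1.2]))
      linarith

theorem mid_int (A0 A1 : ι → ℤ) (t0 tm t1 : ι → ℝ) (E : ℝ)
    (hD : Monotone (fun i => A1 i - A0 i)) (hD0 : ∀ i, A0 i ≤ A1 i)
    (h0m : Monotone (fun i => tm i - t0 i)) (hm1 : Monotone (fun i => t1 i - tm i))
    (h0m' : ∀ i, t0 i ≤ tm i) (hm1' : ∀ i, tm i ≤ t1 i)
    (he0 : ∀ i, |(A0 i : ℝ) - t0 i| ≤ E) (he1 : ∀ i, |(A1 i : ℝ) - t1 i| ≤ E) :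
    ∃ G : ι → ℤ, Monotone (fun i => G i - A0 i) ∧ Monotone (fun i => A1 i - G i) ∧
      (∀ i, A0 i ≤ G i) ∧ (∀ i, G i ≤ A1 i) ∧ ∀ i, |(G i : ℝ) - tm i| ≤ E + 1/2 := by
  obtain ⟨h, h1, h2, h3, h4, h5⟩ := mid_real (fun i => (A0 i : ℝ)) (fun i => (A1 i : ℝ)) t0 tm t1 E
    (fun i j hij => by
      have := hD hij
      simp only at this ⊢
      exact_mod_cast this)
    (fun i => by exact_mod_cast hD0 i) h0m hm1 h0m' hm1' he0 he1
  refine ⟨fun i => ⌊h i + 1/2⌋, ?_, ?_, ?_, ?_, ?_⟩
  · intro i j hij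
    have e := h1 hij
    simp only at e ⊢
    rw [← Int.floor_sub_intCast, ← Int.floor_sub_intCast]
    exact Int.floor_le_floor (by linarith)
  · intro i j hij
    have e := h2 hij
    simp only at e ⊢
    have : ⌊h j + 1/2⌋ - A1 j ≤ ⌊h i + 1/2⌋ - A1 i := by
      rw [← Int.floor_sub_intCast, ← Int.floor_sub_intCast]
      exact Int.floor_le_floor (by linarith)
    linarith
  · intro i
    apply Int.le_floor.mpr
    linarith [h3 i]
  · intro i
    have : ⌊h i + 1/2⌋ < A1 i + 1 := by
      rw [Int.floor_lt]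
      push_cast
      linarith [h4 i]
    simp only
    omega
  · intro i
    have a := abs_le.mp (h5 i)
    have b1 := Int.floor_le (h i + 1/2)
    have b2 := Int.lt_floor_add_one (h i + 1/2)
    rw [abs_le]
    constructor <;> simp only <;> linarith [a.1, a.2]

theorem chain (K : ℕ) : ∀ (t : ℕ → ι → ℝ) (A0 A1 : ι → ℤ) (E : ℝ),
    Monotone (fun i => A1 i - A0 i) → (∀ i, A0 i ≤ A1 i) →
    (∀ s s', s ≤ s' → Monotone (fun i => t s' i - t s i)) →
    (∀ s s', s ≤ s' → ∀ i, t s i ≤ t s' i) →
    (∀ i, |(A0 i : ℝ) - t 0 i| ≤ E) → (∀ i, |(A1 i : ℝ) - t (2^K) i| ≤ E) →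
    ∃ a : ℕ → ι → ℤ, a 0 = A0 ∧ a (2^K) = A1 ∧
      (∀ s, s < 2^K → Monotone (fun i => a (s+1) i - a s i) ∧ ∀ i, a s i ≤ a (s+1) i) ∧
      ∀ s, s ≤ 2^K → ∀ i, |(a s i : ℝ) - t s i| ≤ E + K/2 := by
  induction K with
  | zero =>
    intro t A0 A1 E hD hD0 ht1 ht2 he0 he1
    refine ⟨fun s => if s = 0 then A0 else A1, by simp, by simp, ?_, ?_⟩
    · intro s hs
      have : s = 0 := by simpa using hs
      subst this
      simpa using ⟨hD, hD0⟩
    · intro s hs i
      have hs' : s ≤ 1 := by simpa using hs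
      interval_cases s
      · simpa using he0 i
      · simpa using he1 i
  | succ K ih =>
    intro t A0 A1 E hD hD0 ht1 ht2 he0 he1
    have hp : 2^K ≤ 2^(K+1) := Nat.pow_le_pow_right (by norm_num) (by omega)
    have hpp : 2^(K+1) = 2^K + 2^K := by ring
    obtain ⟨G, g1, g2, g3, g4, g5⟩ := mid_int A0 A1 (t 0) (t (2^K)) (t (2^(K+1))) E hD hD0
      (ht1 _ _ (Nat.zero_le _)) (ht1 _ _ hp) (ht2 _ _ (Nat.zero_le _)) (ht2 _ _ hp) he0 he1
    obtain ⟨a1, a10, a11, a12, a13⟩ := ih t A0 G (E + 1/2) g1 g3 ht1 ht2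
      (fun i => (he0 i).trans (by linarith)) g5
    obtain ⟨a2, a20, a21, a22, a23⟩ := ih (fun s => t (2^K + s)) G A1 (E + 1/2) g2 g4
      (fun s s' h => ht1 _ _ (by omega)) (fun s s' h => ht2 _ _ (by omega))
      (fun i => by simpa using g5 i) (fun i => by
        have := he1 i
        rw [hpp] at this
        exact this.trans (by linarith))
    refine ⟨fun s => if s ≤ 2^K then a1 s else a2 (s - 2^K), ?_, ?_, ?_, ?_⟩
    · simp [a10]
    · have h0 : 0 < 2^K := by positivity
      have : ¬ (2^(K+1) ≤ 2^K) := by omega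
      simp only [this, if_false]
      rw [show 2^(K+1) - 2^K = 2^K by omega, a21]
    · intro s hs
      rcases lt_or_ge s (2^K) with h | h
      · have e1 : s + 1 ≤ 2^K := h
        have e2 : s ≤ 2^K := h.le
        simp only [e1, e2, if_true]
        exact a12 s h
      · have e1 : ¬ (s + 1 ≤ 2^K) := by omega
        have e2 : (if s ≤ 2^K then a1 s else a2 (s - 2^K)) = a2 (s - 2^K) := by
          split_ifs with h'
          · have : s = 2^K := le_antisymm h' h
            subst this
            rw [Nat.sub_self, a11, a20]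
          · rfl
        have e3 : s + 1 - 2^K = (s - 2^K) + 1 := by omega
        simp only [e1, e2, if_false, e3]
        exact a22 (s - 2^K) (by omega)
    · intro s hs i
      have hc : E + ((K+1 : ℕ) : ℝ)/2 = E + 1/2 + K/2 := by push_cast; ring
      rw [hc]
      rcases le_or_gt s (2^K) with h | h
      · simp only [h, if_true]
        exact a13 s h i
      · have h' : ¬ (s ≤ 2^K) := by omega
        simp only [h', if_false]
        have := a23 (s - 2^K) (by omega) i
        rw [show 2^K + (s - 2^K) = s by omega] at this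
        exact this

end Mid

/-! ## Quantiles of a probability measure on the line -/

section Quant

theorem quant (ν : Measure ℝ) [IsProbabilityMeasure ν] (hν : ν (Icc (0:ℝ) 1)ᶜ = 0) (N : ℕ)
    (hN : 1 ≤ N) :
    ∃ (A : ℕ → ℝ) (φ : ℕ → ℝ → ℝ), (∀ s, A s ∈ Icc (0:ℝ) 1) ∧ Monotone A ∧
      (∀ s, Measurable (φ s)) ∧ (∀ s x, 0 ≤ φ s x) ∧ (∀ s x, φ s x ≤ 1) ∧
      (∀ s s', s ≤ s' → ∀ x, φ s x ≤ φ s' x) ∧ (∀ x, φ 0 x = 0) ∧
      (∀ s, ∫ x, φ s x ∂ν = (min s N : ℕ) / (N : ℝ)) ∧
      (∀ s α, (s = 0 ∨ A s < α) → ∀ x, φ s x ≤ (Iio α).indicator 1 x) ∧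
      (∀ s α, (α ≤ A (s+1) ∨ N ≤ s) → ν.real (Iio α) ≤ (min s N : ℕ) / (N : ℝ) + 1 / N) := by
  classical
  have hN0 : (0:ℝ) < N := by exact_mod_cast hN
  obtain ⟨r, hr⟩ : ∃ r : ℕ → ℝ, r = fun s => ((min s N : ℕ) : ℝ) / (N : ℝ) := ⟨_, rfl⟩
  have hr0 : ∀ s, 0 ≤ r s := fun s => by rw [hr]; positivity
  have hr1 : ∀ s, r s ≤ 1 := fun s => by
    rw [hr]
    simp only
    rw [div_le_one hN0]
    exact_mod_cast min_le_right _ _
  have hrm : Monotone r := by
    intro s s' h
    rw [hr]
    simp only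
    have : min s N ≤ min s' N := min_le_min_right _ h
    gcongr
  have h1 : ν.real (Iic (1:ℝ)) = 1 := by
    have : ν (Iic (1:ℝ)) = 1 := by
      rw [← prob_compl_eq_zero_iff measurableSet_Iic]
      refine measure_mono_null ?_ hν
      intro x hx hx'
      exact hx hx'.2
    simp [Measure.real, this]
  have h0 : ∀ x < (0:ℝ), ν.real (Iic x) = 0 := by
    intro x hx
    have : ν (Iic x) = 0 := by
      refine measure_mono_null ?_ hν
      intro y hy hy'
      have h1 : y ≤ x := hy
      have h2 : 0 ≤ y := hy'.1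
      linarith
    simp [Measure.real, this]
  let S : ℕ → Set ℝ := fun s => {x | 0 ≤ x ∧ r s ≤ ν.real (Iic x)}
  have hS1 : ∀ s, (1:ℝ) ∈ S s := fun s => ⟨by norm_num, by rw [h1]; exact hr1 s⟩
  have hSb : ∀ s, BddBelow (S s) := fun s => ⟨0, fun x hx => hx.1⟩
  let A : ℕ → ℝ := fun s => sInf (S s)
  have hA0 : ∀ s, 0 ≤ A s := fun s => le_csInf ⟨_, hS1 s⟩ (fun x hx => hx.1)
  have hA1 : ∀ s, A s ≤ 1 := fun s => csInf_le (hSb s) (hS1 s)
  have hAm : Monotone A := by
    intro s s' h
    exact csInf_le_csInf (hSb s) ⟨_, hS1 s'⟩ (fun x hx => ⟨hx.1, (hrm h).trans hx.2⟩)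
  have hmono : Monotone (fun x : ℝ => ν.real (Iic x)) := fun x y h =>
    measureReal_mono (Iic_subset_Iic.mpr h)
  -- claim 2
  have hc2 : ∀ s, r s ≤ ν.real (Iic (A s)) := by
    intro s
    have hgt : ∀ x, A s < x → r s ≤ ν.real (Iic x) := by
      intro x hx
      obtain ⟨y, hy, hyx⟩ := exists_lt_of_csInf_lt ⟨_, hS1 s⟩ hx
      exact hy.2.trans (hmono hyx.le)
    have hcont := (ProbabilityTheory.cdf ν).right_continuous (A s)
    have hcont2 : Filter.Tendsto (ProbabilityTheory.cdf ν) (nhdsWithin (A s) (Ioi (A s)))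
        (nhds (ProbabilityTheory.cdf ν (A s))) :=
      (hcont.mono Ioi_subset_Ici_self)
    have := ge_of_tendsto hcont2 (b := r s) (by
      filter_upwards [self_mem_nhdsWithin] with x hx
      rw [ProbabilityTheory.cdf_eq_real]
      exact hgt x hx)
    rwa [ProbabilityTheory.cdf_eq_real] at this
  -- claim 1
  have hc1 : ∀ s, ν.real (Iio (A s)) ≤ r s := by
    intro s
    have hlt : ∀ x, x < A s → ν.real (Iic x) ≤ r s := by
      intro x hx
      rcases lt_or_ge x 0 with h | h
      · rw [h0 x h]; exact hr0 s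
      · by_contra hcon
        push Not at hcon
        exact absurd (csInf_le (hSb s) ⟨h, hcon.le⟩) (not_le.mpr hx)
    have hU : Iio (A s) = ⋃ n : ℕ, Iic (A s - 1 / ((n:ℝ) + 1)) := by
      ext x
      simp only [mem_Iio, mem_iUnion, mem_Iic]
      constructor
      · intro hx
        obtain ⟨n, hn⟩ := exists_nat_one_div_lt (sub_pos.mpr hx)
        exact ⟨n, by linarith⟩
      · rintro ⟨n, hn⟩
        have : (0:ℝ) < 1 / ((n:ℝ) + 1) := by positivity
        linarith
    have hmon : Monotone (fun n : ℕ => Iic (A s - 1 / ((n:ℝ) + 1))) := by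
      intro n m hnm
      apply Iic_subset_Iic.mpr
      have : 1 / ((m:ℝ) + 1) ≤ 1 / ((n:ℝ) + 1) := by
        apply one_div_le_one_div_of_le (by positivity)
        have : (n:ℝ) ≤ m := by exact_mod_cast hnm
        linarith
      linarith
    have ht := tendsto_measure_iUnion_atTop (μ := ν) hmon
    rw [← hU] at ht
    have ht2 := (ENNReal.tendsto_toReal (measure_ne_top ν _)).comp ht
    refine le_of_tendsto ht2 (Filter.Eventually.of_forall fun n => ?_)
    exact hlt _ (by
      have : (0:ℝ) < 1 / ((n:ℝ) + 1) := by positivity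
      linarith)
  have hsplit : ∀ s, ν.real (Iic (A s)) = ν.real (Iio (A s)) + ν.real {A s} := by
    intro s
    rw [← measureReal_union (by simp) (measurableSet_singleton _)]
    congr 1
    ext x
    simp [le_iff_lt_or_eq]
  let θ : ℕ → ℝ := fun s => (r s - ν.real (Iio (A s))) / ν.real {A s}
  have hm0 : ∀ s, 0 ≤ ν.real {A s} := fun s => measureReal_nonneg
  have hθ0 : ∀ s, 0 ≤ θ s := fun s => div_nonneg (by linarith [hc1 s]) (hm0 s)
  have hθ1 : ∀ s, θ s ≤ 1 := fun s => div_le_one_of_le₀ (by linarith [hc2 s, hsplit s]) (hm0 s)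
  have hθm : ∀ s, ν.real (Iio (A s)) + θ s * ν.real {A s} = r s := by
    intro s
    rcases (hm0 s).eq_or_lt with h | h
    · have e1 := hc1 s
      have e2 := hc2 s
      have e3 := hsplit s
      rw [← h] at e3 ⊢
      rw [mul_zero, add_zero]
      linarith
    · show ν.real (Iio (A s)) + (r s - ν.real (Iio (A s))) / ν.real {A s} * ν.real {A s} = r s
      rw [div_mul_cancel₀ _ h.ne']
      ring
  let φ : ℕ → ℝ → ℝ := fun s x => if s = 0 then 0 else
    ((Iio (A s)).indicator 1 x + θ s * ({A s} : Set ℝ).indicator 1 x)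
  have hφv : ∀ s, s ≠ 0 → ∀ x, φ s x = if x < A s then 1 else if x = A s then θ s else 0 := by
    intro s hs x
    simp only [φ, hs, if_false]
    rcases lt_trichotomy x (A s) with h | h | h
    · simp [h, h.ne]
    · simp [h]
    · simp [h.ne', not_lt.mpr h.le]
  have hφ0 : ∀ s x, 0 ≤ φ s x := by
    intro s x
    by_cases hs : s = 0
    · simp [φ, hs]
    · rw [hφv s hs]
      split_ifs
      · norm_num
      · exact hθ0 s
      · exact le_rfl
  have hφ1 : ∀ s x, φ s x ≤ 1 := by
    intro s x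
    by_cases hs : s = 0
    · simp [φ, hs]
    · rw [hφv s hs]
      split_ifs
      · norm_num
      · exact hθ1 s
      · norm_num
  refine ⟨A, φ, fun s => ⟨hA0 s, hA1 s⟩, hAm, ?_, hφ0, hφ1, ?_, ?_, ?_, ?_, ?_⟩
  · intro s
    by_cases hs : s = 0
    · simp only [φ, hs, if_true]
      exact measurable_const
    · simp only [φ, hs, if_false]
      exact (measurable_one.indicator measurableSet_Iio).add
        ((measurable_one.indicator (measurableSet_singleton _)).const_mul _)
  · intro s s' hss x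
    by_cases hs : s = 0
    · have : φ s x = 0 := by simp [φ, hs]
      rw [this]
      exact hφ0 s' x
    · have hs' : s' ≠ 0 := by omega
      have hA := hAm hss
      rw [hφv s hs, hφv s' hs']
      rcases hA.eq_or_lt with h | h
      · rw [h]
        have hθ : θ s ≤ θ s' := by
          simp only [θ]
          rw [h]
          apply div_le_div_of_nonneg_right _ (hm0 s')
          linarith [hrm hss]
        split_ifs
        · exact le_rfl
        · exact hθ
        · exact le_rfl
      · by_cases h2 : x < A s'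
        · rw [if_pos h2]
          have := hφ1 s x
          rwa [hφv s hs] at this
        · have h3 : ¬ x < A s := by linarith
          have h4 : x ≠ A s := by linarith
          rw [if_neg h3, if_neg h4]
          have := hφ0 s' x
          rwa [hφv s' hs'] at this
  · intro x
    simp [φ]
  · intro s
    have e : ((min s N : ℕ) : ℝ) / (N : ℝ) = r s := by rw [hr]
    rw [e]
    by_cases hs : s = 0
    · simp only [φ, hs, if_true, integral_zero]
      rw [hr]
      simp
    · simp only [φ, hs, if_false]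
      rw [integral_add, integral_const_mul, integral_indicator_one measurableSet_Iio,
        integral_indicator_one (measurableSet_singleton _)]
      · exact hθm s
      · exact (integrable_const (1:ℝ)).indicator measurableSet_Iio
      · exact ((integrable_const (1:ℝ)).indicator (measurableSet_singleton _)).const_mul _
  · intro s α h x
    by_cases hs : s = 0
    · have : φ s x = 0 := by simp [φ, hs]
      rw [this]
      exact indicator_nonneg (fun _ _ => zero_le_one) x
    · have hα : A s < α := by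
        rcases h with h | h
        · exact absurd h hs
        · exact h
      by_cases hx : x < α
      · rw [indicator_of_mem (show x ∈ Iio α from hx)]
        exact hφ1 s x
      · rw [indicator_of_notMem (show x ∉ Iio α from hx), hφv s hs]
        rw [if_neg (by linarith), if_neg (by linarith)]
  · intro s α h
    have e : ((min s N : ℕ) : ℝ) / (N : ℝ) = r s := by rw [hr]
    rw [e]
    rcases h with h | h
    · have e1 : ν.real (Iio α) ≤ ν.real (Iio (A (s+1))) := measureReal_mono (Iio_subset_Iio h)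
      have e2 := hc1 (s+1)
      have e3 : r (s+1) ≤ r s + 1/N := by
        rw [hr]
        simp only
        rw [← add_div]
        gcongr
        have : min (s+1) N ≤ min s N + 1 := by omega
        exact_mod_cast this
      linarith
    · have e1 : r s = 1 := by
        rw [hr]
        simp only [min_eq_right h]
        exact div_self hN0.ne'
      rw [e1]
      have := measureReal_le_one (μ := ν) (s := Iio α)
      have : (0:ℝ) < 1 / N := by positivity
      linarith

end Quant

/-! ## From integer tables to points -/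

section Points

open Finset

theorem points {β : Type} [Fintype β] (c : β → ℕ) (N : ℕ) (hc : ∑ p, c p = N) :
    ∃ f : Fin N → β, ∀ (P : β → Prop) [DecidablePred P],
      ((univ.filter (fun n => P (f n))).card) = ∑ p ∈ univ.filter P, c p := by
  classical
  have hcard : Fintype.card (Σ p : β, Fin (c p)) = N := by
    rw [Fintype.card_sigma]
    simpa using hc
  let e : Fin N ≃ (Σ p : β, Fin (c p)) := (Fintype.equivFinOfCardEq hcard).symm
  refine ⟨fun n => (e n).1, fun P _ => ?_⟩
  rw [Finset.card_filter, Finset.sum_filter]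
  rw [e.sum_comp (fun q : (Σ p : β, Fin (c p)) => if P q.1 then 1 else 0)]
  rw [Fintype.sum_sigma]
  refine Finset.sum_congr rfl fun p _ => ?_
  split_ifs <;> simp

theorem thr (M : ℕ) (Q : ℕ → Prop) (hQ : ∀ s s', s ≤ s' → Q s' → Q s) :
    ∃ k ≤ M, ∀ s < M, (Q s ↔ s < k) := by
  classical
  induction M with
  | zero => exact ⟨0, le_rfl, fun s hs => absurd hs (Nat.not_lt_zero s)⟩
  | succ M ih =>
    obtain ⟨k, hk, h⟩ := ih
    by_cases hM : Q M
    · refine ⟨M + 1, le_rfl, fun s hs => ⟨fun _ => hs, fun _ => hQ s M (by omega) hM⟩⟩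
    · refine ⟨k, by omega, fun s hs => ?_⟩
      rcases Nat.lt_succ_iff_lt_or_eq.mp hs with h1 | h1
      · exact h s h1
      · subst h1
        refine ⟨fun h2 => absurd h2 hM, fun h2 => absurd h2 (by omega)⟩

theorem sum_cells (a : ℕ → ℕ → ℤ) (h0 : ∀ l, a 0 l = 0) (hs0 : ∀ s, a s 0 = 0) (k m : ℕ) :
    ∑ s ∈ range k, ∑ l ∈ range m, (a (s+1) (l+1) - a s (l+1) - a (s+1) l + a s l) = a k m := by
  have h1 : ∀ s, ∑ l ∈ range m, (a (s+1) (l+1) - a s (l+1) - a (s+1) l + a s l)
      = a (s+1) m - a s m := by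
    intro s
    have : ∀ l, a (s+1) (l+1) - a s (l+1) - a (s+1) l + a s l =
        (a (s+1) (l+1) - a s (l+1)) - (a (s+1) l - a s l) := fun l => by ring
    simp only [this]
    rw [Finset.sum_range_sub (fun l => a (s+1) l - a s l)]
    simp [hs0]
  simp only [h1]
  rw [Finset.sum_range_sub (fun s => a s m)]
  simp [h0]

/-- integer table to points -/
theorem table_points (M N : ℕ) (a : ℕ → ℕ → ℤ) (h0 : ∀ l, a 0 l = 0) (hs0 : ∀ s, s ≤ M → a s 0 = 0)
    (hmono : ∀ s < M, Monotone (fun l => a (s+1) l - a s l)) (hN : a M N = N) :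
    ∃ f : Fin N → Fin M × Fin N, ∀ k ≤ M, ∀ m ≤ N,
      (((univ.filter (fun n => ((f n).1 : ℕ) < k ∧ ((f n).2 : ℕ) < m)).card : ℕ) : ℤ) = a k m := by
  classical
  -- normalise outside the range
  obtain ⟨b, hb⟩ : ∃ b : ℕ → ℕ → ℤ, b = fun s l => if s ≤ M then a s l else 0 := ⟨_, rfl⟩
  have hb0 : ∀ l, b 0 l = 0 := fun l => by rw [hb]; simp [h0]
  have hbs : ∀ s, b s 0 = 0 := fun s => by
    rw [hb]; simp only; split_ifs with h
    · exact hs0 s h
    · rfl
  have hba : ∀ s ≤ M, ∀ l, b s l = a s l := fun s hs l => by rw [hb]; simp [hs]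
  let c : Fin M × Fin N → ℕ := fun p =>
    (b (p.1+1) (p.2+1) - b p.1 (p.2+1) - b (p.1+1) p.2 + b p.1 p.2).toNat
  have hc : ∀ p : Fin M × Fin N, ((c p : ℕ) : ℤ) =
      b (p.1+1) (p.2+1) - b p.1 (p.2+1) - b (p.1+1) p.2 + b p.1 p.2 := by
    intro p
    apply Int.toNat_of_nonneg
    have h1 := hmono p.1 p.1.2 (Nat.le_succ (p.2 : ℕ))
    simp only [Nat.succ_eq_add_one] at h1
    have hp := p.1.2
    rw [hba _ (by omega), hba _ (by omega), hba _ (by omega), hba _ (by omega)]
    linarith
  have hsum : ∀ k ≤ M, ∀ m ≤ N, ∑ p ∈ univ.filter (fun p : Fin M × Fin N => (p.1 : ℕ) < k ∧ (p.2 : ℕ) < m),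
      ((c p : ℕ) : ℤ) = b k m := by
    intro k hk m hm
    rw [Finset.sum_filter, Fintype.sum_prod_type]
    simp only [hc]
    have e1 : ∀ x : Fin M, ∑ y : Fin N, (if (x:ℕ) < k ∧ (y:ℕ) < m then
        b (x+1) (y+1) - b x (y+1) - b (x+1) y + b x y else 0)
        = if (x:ℕ) < k then ∑ l ∈ range m, (b (x+1) (l+1) - b x (l+1) - b (x+1) l + b x l) else 0 := by
      intro x
      split_ifs with hx
      · simp only [hx, true_and]
        rw [Fin.sum_univ_eq_sum_range (fun l => if l < m then
          b (x+1) (l+1) - b x (l+1) - b (x+1) l + b x l else 0) N, ← Finset.sum_filter]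
        congr 1
        ext l
        simp only [Finset.mem_filter, Finset.mem_range]
        omega
      · simp [hx]
    rw [Finset.sum_congr rfl (fun x _ => e1 x)]
    rw [Fin.sum_univ_eq_sum_range (fun s => if s < k then
      ∑ l ∈ range m, (b (s+1) (l+1) - b s (l+1) - b (s+1) l + b s l) else 0) M, ← Finset.sum_filter]
    rw [← sum_cells b hb0 hbs k m]
    apply Finset.sum_congr _ (fun _ _ => rfl)
    ext l
    simp only [Finset.mem_filter, Finset.mem_range]
    omega
  have htot : ∑ p, c p = N := by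
    have h1 := hsum M le_rfl N le_rfl
    have h2 : (Finset.univ.filter (fun p : Fin M × Fin N => (p.1 : ℕ) < M ∧ (p.2 : ℕ) < N)) =
        (Finset.univ : Finset (Fin M × Fin N)) := by
      apply Finset.filter_true_of_mem
      intro p _
      exact ⟨p.1.2, p.2.2⟩
    rw [h2, hba M le_rfl, hN] at h1
    exact_mod_cast h1
  obtain ⟨f, hf⟩ := points c N htot
  refine ⟨f, fun k hk m hm => ?_⟩
  rw [hf (fun p => (p.1 : ℕ) < k ∧ (p.2 : ℕ) < m)]
  push_cast
  rw [hsum k hk m hm, hba k hk]

end Points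

/-! ## The theorem -/

theorem result_clog (μ : Measure (Fin 2 → ℝ)) (hμ : IsProbabilityMeasure μ)
    (hsupp : μ (Set.Icc (0 : Fin 2 → ℝ) 1)ᶜ = 0) (N : ℕ) (hN : 1 ≤ N) :
    ∃ x : Fin N → (Fin 2 → ℝ), (∀ n, x n ∈ Set.Icc (0 : Fin 2 → ℝ) 1) ∧
      ∀ y : Fin 2 → ℝ,
        |((Finset.univ.filter (fun n : Fin N => ∀ i, x n i < y i)).card : ℝ) / (N : ℝ)
            - (μ {z : Fin 2 → ℝ | ∀ i, z i < y i}).toReal| ≤ ((Nat.clog 2 N : ℝ) / 2 + 2) / N := by
  classical
  have hN0 : (0:ℝ) < N := by exact_mod_cast hN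
  have hm0 : Measurable (fun z : Fin 2 → ℝ => z 0) := measurable_pi_apply 0
  have hm1 : Measurable (fun z : Fin 2 → ℝ => z 1) := measurable_pi_apply 1
  have hs0 : (μ.map (fun z => z 0)) (Icc (0:ℝ) 1)ᶜ = 0 := by
    rw [Measure.map_apply hm0 measurableSet_Icc.compl]
    refine measure_mono_null ?_ hsupp
    intro z hz hz'
    exact hz ⟨hz'.1 0, hz'.2 0⟩
  have hs1 : (μ.map (fun z => z 1)) (Icc (0:ℝ) 1)ᶜ = 0 := by
    rw [Measure.map_apply hm1 measurableSet_Icc.compl]
    refine measure_mono_null ?_ hsupp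
    intro z hz hz'
    exact hz ⟨hz'.1 1, hz'.2 1⟩
  have hp0 : IsProbabilityMeasure (μ.map (fun z => z 0)) :=
    Measure.isProbabilityMeasure_map hm0.aemeasurable
  have hp1 : IsProbabilityMeasure (μ.map (fun z => z 1)) :=
    Measure.isProbabilityMeasure_map hm1.aemeasurable
  obtain ⟨A, φ, hA, hAm, hφme, hφ0, hφ1, hφm, hφz, hφi, hφb, hφu⟩ := quant _ hs0 N hN
  obtain ⟨B, ψ, hB, hBm, hψme, hψ0, hψ1, hψm, hψz, hψi, hψb, hψu⟩ := quant _ hs1 N hN
  have hφi' : ∀ s, ∫ z, φ s (z 0) ∂μ = (min s N : ℕ) / (N : ℝ) := by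
    intro s
    rw [← hφi s, integral_map hm0.aemeasurable (hφme s).aestronglyMeasurable]
  have hψi' : ∀ s, ∫ z, ψ s (z 1) ∂μ = (min s N : ℕ) / (N : ℝ) := by
    intro s
    rw [← hψi s, integral_map hm1.aemeasurable (hψme s).aestronglyMeasurable]
  have hintφ : ∀ s, Integrable (fun z : Fin 2 → ℝ => φ s (z 0)) μ := by
    intro s
    refine Integrable.of_bound ((hφme s).comp hm0).aestronglyMeasurable 1 ?_
    filter_upwards with z
    rw [Real.norm_eq_abs, abs_of_nonneg (hφ0 _ _)]
    exact hφ1 _ _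
  have hintψ : ∀ s, Integrable (fun z : Fin 2 → ℝ => ψ s (z 1)) μ := by
    intro s
    refine Integrable.of_bound ((hψme s).comp hm1).aestronglyMeasurable 1 ?_
    filter_upwards with z
    rw [Real.norm_eq_abs, abs_of_nonneg (hψ0 _ _)]
    exact hψ1 _ _
  have hint : ∀ s l, Integrable (fun z : Fin 2 → ℝ => φ s (z 0) * ψ l (z 1)) μ := by
    intro s l
    refine Integrable.of_bound (((hφme s).comp hm0).mul ((hψme l).comp hm1)).aestronglyMeasurable 1 ?_
    filter_upwards with z
    rw [Real.norm_eq_abs, abs_of_nonneg (mul_nonneg (hφ0 _ _) (hψ0 _ _))]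
    exact mul_le_one₀ (hφ1 _ _) (hψ0 _ _) (hψ1 _ _)
  obtain ⟨t, ht⟩ : ∃ t : ℕ → ℕ → ℝ, t = fun s l => N * ∫ z, φ s (z 0) * ψ l (z 1) ∂μ := ⟨_, rfl⟩
  set K := Nat.clog 2 N with hK
  have hNK : N ≤ 2^K := Nat.le_pow_clog (by norm_num) N
  -- properties of t
  have ht1 : ∀ s s', s ≤ s' → Monotone (fun l => t s' l - t s l) := by
    intro s s' hs l l' hl
    simp only [ht]
    rw [← mul_sub, ← mul_sub, ← integral_sub (hint _ _) (hint _ _),
      ← integral_sub (hint _ _) (hint _ _)]
    apply mul_le_mul_of_nonneg_left _ hN0.le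
    apply integral_mono ((hint _ _).sub (hint _ _)) ((hint _ _).sub (hint _ _))
    intro z
    have h1 := hφm s s' hs (z 0)
    have h2 := hψm l l' hl (z 1)
    simp only [Pi.sub_apply]
    nlinarith [mul_nonneg (sub_nonneg.mpr h1) (sub_nonneg.mpr h2)]
  have ht2 : ∀ s s', s ≤ s' → ∀ l, t s l ≤ t s' l := by
    intro s s' hs l
    simp only [ht]
    apply mul_le_mul_of_nonneg_left _ hN0.le
    apply integral_mono (hint _ _) (hint _ _)
    intro z
    exact mul_le_mul_of_nonneg_right (hφm s s' hs (z 0)) (hψ0 _ _)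
  have ht0 : ∀ l, t 0 l = 0 := by
    intro l
    simp [ht, hφz]
  have htM : ∀ l, t (2^K) l = ((min l N : ℕ) : ℝ) := by
    intro l
    have h1 : ∫ z, φ (2^K) (z 0) ∂μ = 1 := by
      rw [hφi', min_eq_right hNK, div_self hN0.ne']
    have h2 : ∫ z, (ψ l (z 1) - φ (2^K) (z 0) * ψ l (z 1)) ∂μ = 0 := by
      apply le_antisymm
      · have h3 : ∫ z, (ψ l (z 1) - φ (2^K) (z 0) * ψ l (z 1)) ∂μ ≤ ∫ z, (1 - φ (2^K) (z 0)) ∂μ := by
          apply integral_mono ((hintψ _).sub (hint _ _)) ((integrable_const _).sub (hintφ _))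
          intro z
          simp only [Pi.sub_apply]
          have a1 := hφ1 (2^K) (z 0)
          have a2 := hψ1 l (z 1)
          nlinarith [mul_nonneg (sub_nonneg.mpr a1) (sub_nonneg.mpr a2)]
        rw [integral_sub (integrable_const _) (hintφ _), h1] at h3
        simpa using h3
      · apply integral_nonneg
        intro z
        have a1 := hφ1 (2^K) (z 0)
        have a2 := hψ0 l (z 1)
        simp only [Pi.zero_apply]
        nlinarith [mul_nonneg (sub_nonneg.mpr a1) a2]
    rw [integral_sub (hintψ _) (hint _ _), hψi'] at h2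
    simp only [ht]
    have h3 : ∫ z, φ (2^K) (z 0) * ψ l (z 1) ∂μ = (min l N : ℕ) / (N : ℝ) := by linarith
    rw [h3]
    field_simp
  -- the integer table
  obtain ⟨a, a0, aM, am, ae⟩ := chain K t (fun _ => 0) (fun l => ((min l N : ℕ) : ℤ)) 0
    (by
      intro l l' hl
      simp only [sub_zero]
      exact_mod_cast min_le_min_right _ hl)
    (fun l => by positivity) ht1 ht2 (fun l => by simp [ht0 l])
    (fun l => by rw [htM l]; simp)
  have asum : ∀ s, s ≤ 2^K → 0 ≤ a s 0 := by
    intro s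
    induction s with
    | zero => intro _; rw [a0]
    | succ s ih =>
      intro hs
      exact (ih (by omega)).trans ((am s (by omega)).2 0)
  have asum' : ∀ j, j ≤ 2^K → a (2^K - j) 0 ≤ 0 := by
    intro j
    induction j with
    | zero => intro _; rw [Nat.sub_zero, aM]; simp
    | succ j ih =>
      intro hj
      have h1 := (am (2^K - (j+1)) (by omega)).2 0
      rw [show 2^K - (j+1) + 1 = 2^K - j by omega] at h1
      exact h1.trans (ih (by omega))
  have as0 : ∀ s, s ≤ 2^K → a s 0 = 0 := by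
    intro s hs
    apply le_antisymm _ (asum s hs)
    have := asum' (2^K - s) (by omega)
    rwa [show 2^K - (2^K - s) = s by omega] at this
  obtain ⟨f, hf⟩ := table_points (2^K) N a (fun l => by rw [a0]) as0 (fun s hs => (am s hs).1)
    (by rw [aM]; simp)
  refine ⟨fun n => ![A ((f n).1 + 1), B ((f n).2 + 1)], ?_, ?_⟩
  · intro n
    rw [Set.mem_Icc, Pi.le_def, Pi.le_def]
    simp only [Fin.forall_fin_two, Pi.zero_apply, Pi.one_apply, Matrix.cons_val_zero,
      Matrix.cons_val_one]
    exact ⟨⟨(hA _).1, (hB _).1⟩, ⟨(hA _).2, (hB _).2⟩⟩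
  · intro y
    obtain ⟨k, hk, hk'⟩ := thr (2^K) (fun s => A (s+1) < y 0)
      (fun s s' h h' => lt_of_le_of_lt (hAm (by omega)) h')
    obtain ⟨m, hm, hm'⟩ := thr N (fun s => B (s+1) < y 1)
      (fun s s' h h' => lt_of_le_of_lt (hBm (by omega)) h')
    have hcount : (((Finset.univ.filter (fun n : Fin N => ∀ i,
        (![A ((f n).1 + 1), B ((f n).2 + 1)] : Fin 2 → ℝ) i < y i)).card : ℕ) : ℤ) = a k m := by
      rw [← hf k hk m hm]
      congr 2
      ext n
      simp only [Finset.mem_filter, Finset.mem_univ, true_and, Fin.forall_fin_two,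
        Matrix.cons_val_zero, Matrix.cons_val_one]
      rw [hk' _ (f n).1.2, hm' _ (f n).2.2]
    have hcountR : ((Finset.univ.filter (fun n : Fin N => ∀ i,
        (![A ((f n).1 + 1), B ((f n).2 + 1)] : Fin 2 → ℝ) i < y i)).card : ℝ) = (a k m : ℝ) := by
      rw [← hcount]
      simp
    simp only at hcountR ⊢
    rw [hcountR]
    -- measure comparisons
    have hW : (μ {z : Fin 2 → ℝ | ∀ i, z i < y i}).toReal =
        ∫ z, (Iio (y 0)).indicator 1 (z 0) * (Iio (y 1)).indicator 1 (z 1) ∂μ := by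
      have hset : MeasurableSet {z : Fin 2 → ℝ | ∀ i, z i < y i} := by
        have : {z : Fin 2 → ℝ | ∀ i, z i < y i} = (fun z => z 0) ⁻¹' (Iio (y 0)) ∩
            (fun z => z 1) ⁻¹' (Iio (y 1)) := by
          ext z
          simp [Fin.forall_fin_two]
        rw [this]
        exact (hm0 measurableSet_Iio).inter (hm1 measurableSet_Iio)
      have h1 : ∀ z : Fin 2 → ℝ, (Iio (y 0)).indicator (1 : ℝ → ℝ) (z 0) *
          (Iio (y 1)).indicator (1 : ℝ → ℝ) (z 1) =
          ({z : Fin 2 → ℝ | ∀ i, z i < y i}).indicator 1 z := by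
        intro z
        simp only [Set.indicator_apply, Set.mem_Iio, Set.mem_ofPred_eq, Fin.forall_fin_two,
          Pi.one_apply]
        by_cases h1 : z 0 < y 0 <;> by_cases h2 : z 1 < y 1 <;> simp [h1, h2]
      simp only [h1]
      rw [integral_indicator_one hset]
      rfl
    have hX : ∀ α, ∫ z : Fin 2 → ℝ, (Iio α).indicator 1 (z 0) ∂μ =
        (μ.map (fun z => z 0)).real (Iio α) := by
      intro α
      rw [← integral_indicator_one measurableSet_Iio, integral_map hm0.aemeasurable]
      exact (measurable_one.indicator measurableSet_Iio).aestronglyMeasurable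
    have hY : ∀ α, ∫ z : Fin 2 → ℝ, (Iio α).indicator 1 (z 1) ∂μ =
        (μ.map (fun z => z 1)).real (Iio α) := by
      intro α
      rw [← integral_indicator_one measurableSet_Iio, integral_map hm1.aemeasurable]
      exact (measurable_one.indicator measurableSet_Iio).aestronglyMeasurable
    have hiX : ∀ α, Integrable (fun z : Fin 2 → ℝ => (Iio α).indicator (1 : ℝ → ℝ) (z 0)) μ := by
      intro α
      refine Integrable.of_bound
        ((measurable_one.indicator measurableSet_Iio).comp hm0).aestronglyMeasurable 1 ?_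
      filter_upwards with z
      rw [Real.norm_eq_abs]
      simp only [Set.indicator_apply]
      split_ifs <;> simp
    have hiY : ∀ α, Integrable (fun z : Fin 2 → ℝ => (Iio α).indicator (1 : ℝ → ℝ) (z 1)) μ := by
      intro α
      refine Integrable.of_bound
        ((measurable_one.indicator measurableSet_Iio).comp hm1).aestronglyMeasurable 1 ?_
      filter_upwards with z
      rw [Real.norm_eq_abs]
      simp only [Set.indicator_apply]
      split_ifs <;> simp
    have hiXY : Integrable (fun z : Fin 2 → ℝ => (Iio (y 0)).indicator (1 : ℝ → ℝ) (z 0) *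
        (Iio (y 1)).indicator (1 : ℝ → ℝ) (z 1)) μ := by
      refine Integrable.of_bound
        (((measurable_one.indicator measurableSet_Iio).comp hm0).mul
        ((measurable_one.indicator measurableSet_Iio).comp hm1)).aestronglyMeasurable 1 ?_
      filter_upwards with z
      rw [Real.norm_eq_abs]
      simp only [Set.indicator_apply]
      split_ifs <;> simp
    have hk1 : ∀ x, φ k x ≤ (Iio (y 0)).indicator 1 x := by
      apply hφb
      rcases Nat.eq_zero_or_pos k with h | h
      · exact Or.inl h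
      · right
        have := (hk' (k-1) (by omega)).mpr (by omega)
        rwa [show k - 1 + 1 = k by omega] at this
    have hm1' : ∀ x, ψ m x ≤ (Iio (y 1)).indicator 1 x := by
      apply hψb
      rcases Nat.eq_zero_or_pos m with h | h
      · exact Or.inl h
      · right
        have := (hm' (m-1) (by omega)).mpr (by omega)
        rwa [show m - 1 + 1 = m by omega] at this
    have hk2 : (μ.map (fun z => z 0)).real (Iio (y 0)) ≤ (min k N : ℕ) / (N : ℝ) + 1 / N := by
      apply hφu
      rcases Nat.lt_or_ge k (2^K) with h | h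
      · left
        by_contra hcon
        push Not at hcon
        have := (hk' k h).mp hcon
        omega
      · right
        omega
    have hm2 : (μ.map (fun z => z 1)).real (Iio (y 1)) ≤ (min m N : ℕ) / (N : ℝ) + 1 / N := by
      apply hψu
      rcases Nat.lt_or_ge m N with h | h
      · left
        by_contra hcon
        push Not at hcon
        have := (hm' m h).mp hcon
        omega
      · right
        exact h
    have hI0 : ∀ (α x : ℝ), (Iio α).indicator (1 : ℝ → ℝ) x ≤ 1 := by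
      intro α x
      simp only [Set.indicator_apply]
      split_ifs <;> simp
    have hlow : t k m ≤ N * (μ {z : Fin 2 → ℝ | ∀ i, z i < y i}).toReal := by
      rw [hW]
      simp only [ht]
      apply mul_le_mul_of_nonneg_left _ hN0.le
      apply integral_mono (hint _ _) hiXY
      intro z
      exact mul_le_mul (hk1 _) (hm1' _) (hψ0 _ _) ((hφ0 _ _).trans (hk1 _))
    have hupp : N * (μ {z : Fin 2 → ℝ | ∀ i, z i < y i}).toReal ≤ t k m + 2 := by
      have h1 : ∫ z : Fin 2 → ℝ, ((Iio (y 0)).indicator 1 (z 0) * (Iio (y 1)).indicator 1 (z 1)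
          - φ k (z 0) * ψ m (z 1)) ∂μ ≤
          ∫ z : Fin 2 → ℝ, (((Iio (y 0)).indicator 1 (z 0) - φ k (z 0)) +
            ((Iio (y 1)).indicator 1 (z 1) - ψ m (z 1))) ∂μ := by
        apply integral_mono (hiXY.sub (hint _ _))
          (((hiX _).sub (hintφ _)).add ((hiY _).sub (hintψ _)))
        intro z
        simp only [Pi.sub_apply, Pi.add_apply]
        have b1 := hk1 (z 0)
        have b2 := hm1' (z 1)
        have b3 := hI0 (y 1) (z 1)
        have b4 := hφ1 k (z 0)
        nlinarith [mul_nonneg (sub_nonneg.mpr b3) (sub_nonneg.mpr b1),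
          mul_nonneg (sub_nonneg.mpr b4) (sub_nonneg.mpr b2)]
      have h1' : ∫ z : Fin 2 → ℝ, (((Iio (y 0)).indicator 1 (z 0) - φ k (z 0)) +
            ((Iio (y 1)).indicator 1 (z 1) - ψ m (z 1))) ∂μ =
          (∫ z : Fin 2 → ℝ, ((Iio (y 0)).indicator 1 (z 0) - φ k (z 0)) ∂μ) +
          ∫ z : Fin 2 → ℝ, ((Iio (y 1)).indicator 1 (z 1) - ψ m (z 1)) ∂μ :=
        integral_add ((hiX _).sub (hintφ _)) ((hiY _).sub (hintψ _))
      rw [integral_sub hiXY (hint _ _), h1',
        integral_sub (hiX _) (hintφ _), integral_sub (hiY _) (hintψ _), hX, hY, hφi', hψi',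
        ← hW] at h1
      have h2 : (μ {z : Fin 2 → ℝ | ∀ i, z i < y i}).toReal ≤
          (∫ z, φ k (z 0) * ψ m (z 1) ∂μ) + 2 / N := by
        have : (2:ℝ) / N = 1/N + 1/N := by ring
        rw [this]
        linarith
      have h3 := mul_le_mul_of_nonneg_left h2 hN0.le
      simp only [ht]
      refine h3.trans (le_of_eq ?_)
      field_simp
    have hae := abs_le.mp (ae k hk m)
    rw [zero_add] at hae
    rw [div_sub' hN0.ne', abs_div, abs_of_pos hN0]
    apply div_le_div_of_nonneg_right _ hN0.le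
    rw [abs_le]
    have hKn : (0:ℝ) ≤ (K:ℝ)/2 := by positivity
    constructor <;> linarith [hae.1, hae.2]

/-- **General measures on the square have discrepancy of order `log N`.** -/
theorem result (μ : MeasureTheory.Measure (Fin 2 → ℝ)) (hμ : MeasureTheory.IsProbabilityMeasure μ)
    (hsupp : μ (Set.Icc (0 : Fin 2 → ℝ) 1)ᶜ = 0) (N : ℕ) (hN : 2 ≤ N) :
    ∃ x : Fin N → (Fin 2 → ℝ), (∀ n, x n ∈ Set.Icc (0 : Fin 2 → ℝ) 1) ∧
      ∀ y : Fin 2 → ℝ,
        |((Finset.univ.filter (fun n : Fin N => ∀ i, x n i < y i)).card : ℝ) / (N : ℝ)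
            - (μ {z : Fin 2 → ℝ | ∀ i, z i < y i}).toReal| ≤ 5 * Real.log N / N := by
  obtain ⟨x, hx, hy⟩ := result_clog μ hμ hsupp N (by omega)
  refine ⟨x, hx, fun y => (hy y).trans ?_⟩
  have hN0 : (0:ℝ) < N := by exact_mod_cast (by omega : 0 < N)
  apply div_le_div_of_nonneg_right _ hN0.le
  have h1 : 2 ^ (Nat.clog 2 N).pred < N := Nat.pow_pred_clog_lt_self (by norm_num) (by omega)
  have hc : 1 ≤ Nat.clog 2 N := Nat.clog_pos (by norm_num) hN
  have h2 : ((Nat.clog 2 N : ℝ) - 1) * Real.log 2 ≤ Real.log N := by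
    have h3 : ((2:ℝ) ^ (Nat.clog 2 N).pred) ≤ N := by exact_mod_cast h1.le
    have h4 := Real.log_le_log (by positivity) h3
    rw [Real.log_pow, Nat.pred_eq_sub_one, Nat.cast_sub hc] at h4
    simpa using h4
  have h5 : Real.log 2 ≤ Real.log N := Real.log_le_log (by norm_num) (by exact_mod_cast hN)
  have h6 := Real.log_two_gt_d9
  have hc' : (1:ℝ) ≤ (Nat.clog 2 N : ℝ) := by exact_mod_cast hc
  nlinarith

end Pool.Agent.Results.MP_507a17_nt.PlaneMeasures
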